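import Pool.Agent.Helper35.SL.Stm

set_option autoImplicit false

namespace Pool.Agent.Helper28.SL

open Module

theorem ec_aux (N : ℕ) (U : Submodule ℚ (Fin N → ℚ)) :
    ∃ (p : Fin (finrank ℚ U) → Fin N) (u : Fin (finrank ℚ U) → (Fin N → ℚ)), StrictMono p ∧
    ∀ a, u a ∈ U ∧ u a (p a) ≠ 0 ∧ ∀ i, p a < i → u a i = 0 := by
  classical
  set S : Finset (Fin N) := Finset.univ.filter fun i =>
    ∃ u ∈ U, u i ≠ 0 ∧ ∀ j, i < j → u j = 0 with hS
  have hcard : finrank ℚ U ≤ S.card := by
    let L : U →ₗ[ℚ] (S → ℚ) :=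
      { toFun := fun v i => (v : Fin N → ℚ) i
        map_add' := fun _ _ => rfl
        map_smul' := fun _ _ => rfl }
    have hL : Function.Injective L := by
      rw [← LinearMap.ker_eq_bot, LinearMap.ker_eq_bot']
      intro v hv
      by_contra hne
      have h0 : (Finset.univ.filter fun i => (v : Fin N → ℚ) i ≠ 0).Nonempty := by
        by_contra hc
        rw [Finset.not_nonempty_iff_eq_empty, Finset.filter_eq_empty_iff] at hc
        apply hne
        ext i
        have := hc (Finset.mem_univ i)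
        push Not at this
        exact this
      have h1 := Finset.max'_mem _ h0
      set i0 := (Finset.univ.filter fun i => (v : Fin N → ℚ) i ≠ 0).max' h0 with hi0
      have h2 : (v : Fin N → ℚ) i0 ≠ 0 := (Finset.mem_filter.1 h1).2
      have h3 : i0 ∈ S := by
        rw [hS, Finset.mem_filter]
        refine ⟨Finset.mem_univ _, v, v.2, h2, fun j hj => ?_⟩
        by_contra h4
        exact absurd (Finset.le_max' _ j (Finset.mem_filter.2 ⟨Finset.mem_univ _, h4⟩))
          (not_le.2 hj)
      exact h2 (congrFun hv ⟨i0, h3⟩)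
    have h := LinearMap.finrank_le_finrank_of_injective hL
    rwa [Module.finrank_fintype_fun_eq_card, Fintype.card_coe] at h
  have hmem : ∀ a : Fin (finrank ℚ U), S.orderEmbOfFin rfl (Fin.castLE hcard a) ∈ S :=
    fun a => Finset.orderEmbOfFin_mem S rfl _
  have hex : ∀ a : Fin (finrank ℚ U), ∃ u ∈ U, u (S.orderEmbOfFin rfl (Fin.castLE hcard a)) ≠ 0 ∧
      ∀ j, S.orderEmbOfFin rfl (Fin.castLE hcard a) < j → u j = 0 :=
    fun a => (Finset.mem_filter.1 (hmem a)).2
  choose u hu1 hu2 hu3 using hex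
  exact ⟨fun a => S.orderEmbOfFin rfl (Fin.castLE hcard a), u,
    fun a b hab => (S.orderEmbOfFin rfl).strictMono ((Fin.castLE_lt_castLE_iff hcard).2 hab),
    fun a => ⟨hu1 a, hu2 a, hu3 a⟩⟩

theorem ec : Pool.Agent.Helper35.SL.S_EC := fun N U => ec_aux N U

end Pool.Agent.Helper28.SL
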