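import Pool.Agent.Helper35.SL.Stm2

/-! Package KE: the kernel is generated by the value of `2 π i`. -/

set_option autoImplicit false

namespace Pool.Agent.Helper28.SL

open Pool.Agent.Helper35.EM Pool.Agent.Helper35.GF Pool.Agent.Helper56.EM Pool.Agent.Helper35.SL

theorem ke : S_KE := by
  intro K lam F hK hE v hv hl x hx
  obtain ⟨t, tK, t0, hk⟩ := F.ker
  have tK' : t ∈ K := by
    have h := tK
    rw [hK] at h
    exact h
  have hvK : (v : ℂ) ∈ F.K := by
    rw [hK]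
    exact v.2
  have hEv : F.E v = 1 := by
    rw [hE, hl, Complex.exp_two_pi_mul_I]
  obtain ⟨m, hm⟩ := (hk v hvK).1 hEv
  have hEt : F.E ((⟨t, tK'⟩ : K) : ℂ) = 1 := (hk t tK).2 ⟨1, by simp⟩
  rw [hE, Complex.exp_eq_one_iff] at hEt
  obtain ⟨n, hn⟩ := hEt
  have hvt : v = m • (⟨t, tK'⟩ : K) := by
    apply Subtype.ext
    rw [hm]
    simp
  have h1 : lam v = m * lam (⟨t, tK'⟩ : K) := by
    conv_lhs => rw [hvt]
    rw [map_zsmul, zsmul_eq_mul]
  rw [hl, hn] at h1
  have h2 : ((m * n : ℤ) : ℂ) = 1 := by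
    have h3 : (2 * (Real.pi : ℂ) * Complex.I) ≠ 0 := Complex.two_pi_I_ne_zero
    have h4 : (2 * (Real.pi : ℂ) * Complex.I) * (((m * n : ℤ) : ℂ) - 1) = 0 := by
      push_cast
      linear_combination -h1
    rcases mul_eq_zero.1 h4 with h | h
    · exact absurd h h3
    · exact sub_eq_zero.1 h
  have h3 : m * n = 1 := by exact_mod_cast h2
  rw [hk x hx]
  rcases Int.isUnit_iff.1 (IsUnit.of_mul_eq_one n h3) with h | h
  · rw [hm, h]
    simp
  · rw [hm, h]
    constructor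
    · rintro ⟨k, rfl⟩
      exact ⟨-k, by push_cast; ring⟩
    · rintro ⟨k, rfl⟩
      exact ⟨-k, by push_cast; ring⟩

end Pool.Agent.Helper28.SL
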